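import Mathlib

namespace Pool.Agent.Results.MP_b87ef1_co.EvenDisproof

/-- A family of subsets of `Fin n` is admissible if no three pairwise distinct members
`A, B, C` satisfy `A ∪ B = C` or `A ∩ B = C`. -/
def Admissible {n : ℕ} (F : Finset (Finset (Fin n))) : Prop :=
  ∀ A ∈ F, ∀ B ∈ F, ∀ C ∈ F, A ≠ B → A ≠ C → B ≠ C → A ∪ B ≠ C ∧ A ∩ B ≠ C

/-- `f n` is the largest size of an admissible family of subsets of an `n`-element set. -/
noncomputable def f (n : ℕ) : ℕ :=
  sSup {k : ℕ | ∃ F : Finset (Finset (Fin n)), Admissible F ∧ F.card = k}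

/-- The value conjectured for `f n`. -/
def conjectured (n : ℕ) : ℚ :=
  if Even n then (n.choose (n / 2) : ℚ) + 1
  else ((n : ℚ) + 1) / n * (n.choose ((n - 1) / 2) : ℚ)

theorem bddAbove_sizes (n : ℕ) :
    BddAbove {k : ℕ | ∃ F : Finset (Finset (Fin n)), Admissible F ∧ F.card = k} := by
  refine ⟨Fintype.card (Finset (Fin n)), ?_⟩
  rintro k ⟨F, -, rfl⟩
  exact Finset.card_le_univ F

theorem le_f {n : ℕ} {F : Finset (Finset (Fin n))} (h : Admissible F) : F.card ≤ f n :=
  le_csSup (bddAbove_sizes n) ⟨F, h, rfl⟩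

/-- The family: all `(m-1)`-sets avoiding `x`, all `(m+1)`-sets containing `x`, the set `{x}`
and the complement of `{x}`. -/
def fam (n m : ℕ) (x : Fin n) : Finset (Finset (Fin n)) :=
  Finset.univ.filter fun S =>
    (x ∉ S ∧ (S.card = m - 1 ∨ S.card = 2 * m - 1)) ∨ (x ∈ S ∧ (S.card = m + 1 ∨ S.card = 1))

theorem mem_fam {n m : ℕ} {x : Fin n} {S : Finset (Fin n)} :
    S ∈ fam n m x ↔ (x ∉ S ∧ (S.card = m - 1 ∨ S.card = 2 * m - 1)) ∨
      (x ∈ S ∧ (S.card = m + 1 ∨ S.card = 1)) := by
  simp [fam]

theorem eq_compl_of_card {n m : ℕ} (hn : n = 2 * m) {x : Fin n} {S : Finset (Fin n)}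
    (hx : x ∉ S) (hc : S.card = 2 * m - 1) : S = Finset.univ.erase x := by
  apply Finset.eq_of_subset_of_card_le
  · intro y hy
    refine Finset.mem_erase.2 ⟨?_, Finset.mem_univ _⟩
    rintro rfl
    exact hx hy
  · rw [Finset.card_erase_of_mem (Finset.mem_univ _), Finset.card_univ, Fintype.card_fin, hc, hn]

theorem admissible_fam {n m : ℕ} (hm : 2 ≤ m) (hn : n = 2 * m) (x : Fin n) :
    Admissible (fam n m x) := by
  intro A hA B hB C hC hAB hAC hBC
  rw [mem_fam] at hA hB hC
  have hui := Finset.card_union_add_card_inter A B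
  have hle : (A ∪ B).card ≤ n := by
    simpa using Finset.card_le_univ (A ∪ B)
  constructor
  · intro h
    have hsA : A ⊂ C := by
      refine lt_of_le_of_ne ?_ hAC
      rw [← h]; exact Finset.subset_union_left
    have hsB : B ⊂ C := by
      refine lt_of_le_of_ne ?_ hBC
      rw [← h]; exact Finset.subset_union_right
    have hcA := Finset.card_lt_card hsA
    have hcB := Finset.card_lt_card hsB
    rw [h] at hui
    rcases hC with ⟨hxC, hC⟩ | ⟨hxC, hC⟩
    · have hxA : x ∉ A := fun hx => hxC (hsA.1 hx)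
      have hxB : x ∉ B := fun hx => hxC (hsB.1 hx)
      rcases hA with ⟨-, hA⟩ | ⟨hA, -⟩
      · rcases hB with ⟨-, hB⟩ | ⟨hB, -⟩
        · omega
        · exact hxB hB
      · exact hxA hA
    · have hxAB : x ∈ A ∨ x ∈ B := by
        have : x ∈ A ∪ B := by rw [h]; exact hxC
        simpa using this
      rcases hA with ⟨hxA, hA⟩ | ⟨hxA, hA⟩
      · rcases hB with ⟨hxB, hB⟩ | ⟨hxB, hB⟩
        · rcases hxAB with h1 | h1
          · exact hxA h1
          · exact hxB h1
        · omega
      · rcases hB with ⟨hxB, hB⟩ | ⟨hxB, hB⟩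
        · omega
        · have hA1 : A.card = 1 := by omega
          have hB1 : B.card = 1 := by omega
          apply hAB
          obtain ⟨a, ha⟩ := Finset.card_eq_one.1 hA1
          obtain ⟨b, hb⟩ := Finset.card_eq_one.1 hB1
          rw [ha] at hxA
          rw [hb] at hxB
          rw [ha, hb, ← Finset.mem_singleton.1 hxA, ← Finset.mem_singleton.1 hxB]
  · intro h
    have hsA : C ⊂ A := by
      refine lt_of_le_of_ne ?_ (Ne.symm hAC)
      rw [← h]; exact Finset.inter_subset_left
    have hsB : C ⊂ B := by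
      refine lt_of_le_of_ne ?_ (Ne.symm hBC)
      rw [← h]; exact Finset.inter_subset_right
    have hcA := Finset.card_lt_card hsA
    have hcB := Finset.card_lt_card hsB
    have hAn : A.card ≤ n := by simpa using Finset.card_le_univ A
    rw [h] at hui
    rcases hC with ⟨hxC, hC⟩ | ⟨hxC, hC⟩
    · rcases hA with ⟨hxA, hA⟩ | ⟨hxA, hA⟩
      · have hA' : A.card = 2 * m - 1 := by omega
        have hAe := eq_compl_of_card hn hxA hA'
        rcases hB with ⟨hxB, hB⟩ | ⟨hxB, hB⟩
        · have hB' : B.card = 2 * m - 1 := by omega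
          exact hAB (hAe.trans (eq_compl_of_card hn hxB hB').symm)
        · have hB' : B.card = m + 1 := by omega
          have hsub : B.erase x ⊆ C := by
            rw [← h]
            intro y hy
            rw [Finset.mem_erase] at hy
            refine Finset.mem_inter.2 ⟨?_, hy.2⟩
            rw [hAe]
            exact Finset.mem_erase.2 ⟨hy.1, Finset.mem_univ _⟩
          have h3 := Finset.card_le_card hsub
          rw [Finset.card_erase_of_mem hxB] at h3
          have h4 : C.card < A.card := hcA
          omega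
      · rcases hB with ⟨hxB, hB⟩ | ⟨hxB, hB⟩
        · have hB' : B.card = 2 * m - 1 := by omega
          have hBe := eq_compl_of_card hn hxB hB'
          have hA' : A.card = m + 1 := by omega
          have hsub : A.erase x ⊆ C := by
            rw [← h]
            intro y hy
            rw [Finset.mem_erase] at hy
            refine Finset.mem_inter.2 ⟨hy.2, ?_⟩
            rw [hBe]
            exact Finset.mem_erase.2 ⟨hy.1, Finset.mem_univ _⟩
          have h3 := Finset.card_le_card hsub
          rw [Finset.card_erase_of_mem hxA] at h3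
          omega
        · exact hxC (by rw [← h]; exact Finset.mem_inter.2 ⟨hxA, hxB⟩)
    · have hxA : x ∈ A := hsA.1 hxC
      have hxB : x ∈ B := hsB.1 hxC
      rcases hA with ⟨hA, -⟩ | ⟨-, hA⟩
      · exact hA hxA
      · rcases hB with ⟨hB, -⟩ | ⟨-, hB⟩
        · exact hB hxB
        · omega

theorem card_fam {n m : ℕ} (hm : 2 ≤ m) (hn : n = 2 * m) (x : Fin n) :
    n.choose m + 2 ≤ (fam n m x).card := by
  classical
  set E : Finset (Fin n) := Finset.univ.erase x with hE
  have hEc : E.card = 2 * m - 1 := by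
    rw [hE, Finset.card_erase_of_mem (Finset.mem_univ _), Finset.card_univ, Fintype.card_fin, hn]
  have hxE : x ∉ E := by simp [hE]
  set P := E.powersetCard (m - 1) with hP
  set Q := (E.powersetCard m).image (insert x) with hQ
  have hPc : P.card = (2 * m - 1).choose (m - 1) := by
    rw [hP, Finset.card_powersetCard, hEc]
  have hQc : Q.card = (2 * m - 1).choose m := by
    rw [hQ, Finset.card_image_of_injOn, Finset.card_powersetCard, hEc]
    intro S hS T hT hST
    rw [Finset.mem_coe, Finset.mem_powersetCard] at hS hT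
    have hxS : x ∉ S := fun h => hxE (hS.1 h)
    have hxT : x ∉ T := fun h => hxE (hT.1 h)
    have := congrArg (fun U => Finset.erase U x) hST
    simpa [Finset.erase_insert hxS, Finset.erase_insert hxT] using this
  have hPmem : ∀ S ∈ P, x ∉ S ∧ S.card = m - 1 := by
    intro S hS
    rw [hP, Finset.mem_powersetCard] at hS
    exact ⟨fun h => hxE (hS.1 h), hS.2⟩
  have hQmem : ∀ S ∈ Q, x ∈ S ∧ S.card = m + 1 := by
    intro S hS
    rw [hQ, Finset.mem_image] at hS
    obtain ⟨T, hT, rfl⟩ := hS
    rw [Finset.mem_powersetCard] at hT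
    have hxT : x ∉ T := fun h => hxE (hT.1 h)
    exact ⟨Finset.mem_insert_self _ _, by rw [Finset.card_insert_of_notMem hxT, hT.2]⟩
  have hdPQ : Disjoint P Q := by
    rw [Finset.disjoint_left]
    intro S hS hS'
    exact (hPmem S hS).1 (hQmem S hS').1
  have hR : ({({x} : Finset (Fin n)), E} : Finset (Finset (Fin n))).card = 2 := by
    rw [Finset.card_pair]
    intro h
    exact hxE (h ▸ Finset.mem_singleton_self x)
  have hdR : Disjoint (P ∪ Q) ({({x} : Finset (Fin n)), E} : Finset (Finset (Fin n))) := by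
    rw [Finset.disjoint_left]
    intro S hS hS'
    rw [Finset.mem_insert, Finset.mem_singleton] at hS'
    rw [Finset.mem_union] at hS
    rcases hS' with rfl | hS'
    · rcases hS with hS | hS
      · exact (hPmem _ hS).1 (Finset.mem_singleton_self x)
      · have := (hQmem _ hS).2
        rw [Finset.card_singleton] at this
        omega
    · rcases hS with hS | hS
      · have h1 := (hPmem _ hS).2
        rw [hS', hEc] at h1
        omega
      · have h1 := (hQmem _ hS).1
        rw [hS'] at h1
        exact hxE h1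
  have hsub : (P ∪ Q) ∪ {({x} : Finset (Fin n)), E} ⊆ fam n m x := by
    intro S hS
    rw [mem_fam]
    rw [Finset.mem_union, Finset.mem_union, Finset.mem_insert, Finset.mem_singleton] at hS
    rcases hS with (hS | hS) | (hS | hS)
    · exact Or.inl ⟨(hPmem S hS).1, Or.inl (hPmem S hS).2⟩
    · exact Or.inr ⟨(hQmem S hS).1, Or.inl (hQmem S hS).2⟩
    · subst hS
      exact Or.inr ⟨Finset.mem_singleton_self x, Or.inr (Finset.card_singleton x)⟩
    · subst hS
      exact Or.inl ⟨hxE, Or.inr hEc⟩
  have hcard := Finset.card_le_card hsub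
  rw [Finset.card_union_of_disjoint hdR, Finset.card_union_of_disjoint hdPQ, hPc, hQc, hR] at hcard
  have hch : n.choose m = (2 * m - 1).choose (m - 1) + (2 * m - 1).choose m := by
    obtain ⟨k, rfl⟩ : ∃ k, m = k + 1 := ⟨m - 1, by omega⟩
    have h1 : n = (2 * (k + 1) - 1) + 1 := by omega
    rw [h1, Nat.choose_succ_succ]
    simp
  omega

/-- For every even `n ≥ 4` there is an admissible family whose size is larger than the
conjectured value: `f n ≥ C(n, n/2) + 2`, whereas the conjecture says `C(n, n/2) + 1`. -/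
theorem result : ∀ n : ℕ, 4 ≤ n → Even n →
    n.choose (n / 2) + 2 ≤ f n ∧ conjectured n < f n := by
  intro n h4 hev
  obtain ⟨m, hm⟩ := hev
  have hn : n = 2 * m := by omega
  have hm2 : 2 ≤ m := by omega
  have hdiv : n / 2 = m := by omega
  have x : Fin n := ⟨0, by omega⟩
  have h1 := card_fam hm2 hn x
  have h2 := le_f (admissible_fam hm2 hn x)
  have h3 : n.choose (n / 2) + 2 ≤ f n := by
    rw [hdiv]; exact h1.trans h2
  refine ⟨h3, ?_⟩
  have hev' : Even n := ⟨m, hm⟩
  rw [conjectured, if_pos hev']
  have h4 : ((n.choose (n / 2) : ℕ) : ℚ) + 2 ≤ (f n : ℚ) := by exact_mod_cast h3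
  linarith

end Pool.Agent.Results.MP_b87ef1_co.EvenDisproof
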